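import Pool.Agent.Q120.RZ.Stm

/-!
# Project RZ (helper120), job BLK: all deviations in a dyadic block
-/

set_option autoImplicit false

namespace Q299.RZ

open Finset MeasureTheory Filter Pool.Agent.Q120.ET Pool.Agent.Q120.GM Pool.Agent.Q120.GE
open Pool.Agent.Q120.RZ
open scoped Topology

theorem rpow_mul_nat (c : ℝ) (k : ℕ) : (2 : ℝ) ^ (c * k) = ((2 : ℝ) ^ c) ^ k := by
  rw [Real.rpow_mul (by norm_num), Real.rpow_natCast]

theorem ev_exp {c : ℝ} (hc : 0 < c) :
    ∀ᶠ k : ℕ in atTop, ((k : ℝ) + 1) * Real.log 2 ≤ (2 : ℝ) ^ (c * k) / 16 := by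
  have hb : 1 < (2 : ℝ) ^ c := Real.one_lt_rpow (by norm_num) hc
  have h1 := tendsto_pow_const_div_const_pow_of_one_lt 1 hb
  have h2 := tendsto_pow_const_div_const_pow_of_one_lt 0 hb
  have h3 := (h1.add h2).mul_const (16 * Real.log 2)
  simp only [pow_one, pow_zero, add_zero, zero_mul] at h3
  filter_upwards [h3.eventually_lt_const (show (0 : ℝ) < 1 by norm_num)] with k hk
  have hpos : (0 : ℝ) < ((2 : ℝ) ^ c) ^ k := by positivity
  rw [rpow_mul_nat]
  rw [← add_div, div_mul_eq_mul_div, div_lt_one hpos] at hk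
  linarith

theorem t_BLK : J_BLK := by
  intro hT θ hθ hθ1
  have hc : 0 < 2 * θ - 1 := by linarith
  obtain ⟨K₁, hK₁⟩ := eventually_atTop.1 (ev_exp hc)
  refine ⟨max K₁ 3, fun k hk Ω _ μ _ p A hA hp => ?_⟩
  have hk1 : K₁ ≤ k := le_trans (le_max_left _ _) hk
  have hk3 : 3 ≤ k := le_trans (le_max_right _ _) hk
  set V : ℝ := 2 ^ k with hV
  set t : ℝ := (2 : ℝ) ^ (θ * k) with ht
  set y : ℝ := (2 : ℝ) ^ ((2 * θ - 1) * k) with hy
  have hV0 : 0 < V := by positivity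
  have ht0 : 0 < t := by positivity
  have hy0 : 0 < y := by positivity
  have htV : t ≤ V := by
    rw [ht, hV, ← Real.rpow_natCast 2 k]
    apply Real.rpow_le_rpow_of_exponent_le (by norm_num)
    have : (0 : ℝ) ≤ k := by positivity
    nlinarith
  have hty : t ^ 2 = y * V := by
    rw [ht, hy, hV, ← Real.rpow_natCast 2 k, ← Real.rpow_natCast _ 2, ← Real.rpow_mul (by norm_num),
      ← Real.rpow_add (by norm_num)]
    congr 1
    push_cast
    ring
  -- the probabilities are at most one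
  have hp1 : ∀ n : ℕ, 2 ^ k ≤ n → p n ≤ 1 := by
    intro n hn
    have h8 : 2 ^ 3 ≤ n := le_trans (Nat.pow_le_pow_right (by norm_num) hk3) hn
    have h1 := hp n (by omega)
    have h2 : (2 : ℝ) ≤ Real.log n := by
      have h3 : Real.log 8 ≤ Real.log n :=
        Real.log_le_log (by norm_num) (by exact_mod_cast h8)
      have h4 : Real.log 8 = 3 * Real.log 2 := by
        rw [show (8 : ℝ) = 2 ^ 3 by norm_num, Real.log_pow]; norm_num
      have h5 := Real.log_two_gt_d9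
      linarith
    refine h1.trans ?_
    rw [div_le_one (by linarith)]
    exact h2
  have hone : ∀ x ∈ Ico (2 ^ k) (2 ^ (k + 1)),
      μ.real {ω | t ≤ bdev (A ω) p k x} ≤ 2 * Real.exp (-(y / 8)) := by
    intro x hx
    rw [mem_Ico] at hx
    have hsum : ∑ n ∈ Icc (2 ^ k) x, p n ≤ V := by
      calc ∑ n ∈ Icc (2 ^ k) x, p n ≤ ∑ n ∈ Icc (2 ^ k) x, (1 : ℝ) :=
            Finset.sum_le_sum fun n hn => hp1 n (mem_Icc.1 hn).1
        _ = ((Icc (2 ^ k) x).card : ℝ) := by simp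
        _ ≤ ((2 ^ k : ℕ) : ℝ) := by
            rw [Nat.card_Icc]
            have : 2 ^ (k + 1) = 2 ^ k + 2 ^ k := by ring
            exact_mod_cast (by omega)
        _ = V := by rw [hV]; push_cast; rfl
    refine (hT Ω μ p A hA (Icc (2 ^ k) x) V t hsum ht0).trans ?_
    have h1 : y / 8 ≤ t ^ 2 / (4 * (V + t)) := by
      rw [hty, div_le_div_iff₀ (by norm_num) (by positivity)]
      nlinarith [mul_le_mul_of_nonneg_left htV hy0.le]
    have h2 : Real.exp (-(t ^ 2 / (4 * (V + t)))) ≤ Real.exp (-(y / 8)) :=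
      Real.exp_le_exp.2 (by linarith)
    linarith
  have hsub : {ω | ∃ x : ℕ, 2 ^ k ≤ x ∧ x < 2 ^ (k + 1) ∧ t ≤ bdev (A ω) p k x} ⊆
      ⋃ x ∈ Ico (2 ^ k) (2 ^ (k + 1)), {ω | t ≤ bdev (A ω) p k x} := by
    rintro ω ⟨x, h1, h2, h3⟩
    exact Set.mem_biUnion (Finset.mem_coe.2 (mem_Ico.2 ⟨h1, h2⟩)) h3
  have h1 := (measureReal_mono hsub (measure_ne_top μ _)).trans
    (measureReal_biUnion_finset_le _ _)
  refine h1.trans ((Finset.sum_le_sum hone).trans ?_)
  rw [Finset.sum_const, Nat.card_Ico, nsmul_eq_mul]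
  have hcard : ((2 ^ (k + 1) - 2 ^ k : ℕ) : ℝ) = 2 ^ k := by
    have h5 : (2 : ℕ) ^ (k + 1) - 2 ^ k = 2 ^ k := by
      rw [pow_succ]; omega
    rw [h5]; push_cast; rfl
  rw [hcard]
  have h2 := hK₁ k hk1
  have h3 : (2 : ℝ) ^ k * (2 * Real.exp (-(y / 8))) =
      Real.exp (((k : ℝ) + 1) * Real.log 2) * Real.exp (-(y / 8)) := by
    have e : Real.exp (((k : ℝ) + 1) * Real.log 2) = 2 ^ (k + 1) := by
      have : ((k : ℝ) + 1) * Real.log 2 = Real.log (2 ^ (k + 1)) := by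
        rw [Real.log_pow]; push_cast; ring
      rw [this, Real.exp_log (by positivity)]
    rw [e, pow_succ]; ring
  rw [h3, ← Real.exp_add]
  apply Real.exp_le_exp.2
  linarith

end Q299.RZ
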