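import Pool.Agent.Q120.RZ.Stm

/-!
# Project RZ (helper120), job KL: relative entropy of a model with independent elements
-/

set_option autoImplicit false

namespace Q299.RZ

open Finset MeasureTheory Filter Pool.Agent.Q120.ET Pool.Agent.Q120.GM Pool.Agent.Q120.GE
open Pool.Agent.Q120.RZ
open scoped Topology

theorem log_three_gt : 12 / 11 < Real.log 3 := by
  rw [Real.lt_log_iff_exp_lt (by norm_num)]
  have h1 : Real.exp (12 / 11) ^ 11 < 3 ^ 11 := by
    rw [← Real.exp_nat_mul]
    have e : ((11 : ℕ) : ℝ) * (12 / 11) = ((12 : ℕ) : ℝ) * 1 := by norm_num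
    rw [e, Real.exp_nat_mul]
    calc Real.exp 1 ^ 12 ≤ 2.7182818286 ^ 12 :=
          pow_le_pow_left₀ (Real.exp_pos _).le Real.exp_one_lt_d9.le 12
      _ < 3 ^ 11 := by norm_num
  exact lt_of_pow_lt_pow_left₀ 11 (by norm_num) h1

theorem t_KL : J_KL := by
  classical
  intro Ω _ μ _ A d hA B hB
  set p : ℕ → ℝ := fun n => (1 - d n) * pc n with hp
  set q : ℕ → ℝ := fun n => 1 / Real.log n with hq
  have hlog : ∀ n ∈ B, 12 / 11 < Real.log n := by
    intro n hn
    refine lt_of_lt_of_le log_three_gt (Real.log_le_log (by norm_num) ?_)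
    exact_mod_cast hB n hn
  have hpc : ∀ n ∈ B, pc n = q n := fun n hn => by
    unfold pc; rw [if_pos (hB n hn)]
  have hq0 : ∀ n ∈ B, 0 < q n := fun n hn => by
    have := hlog n hn
    simp only [hq]
    positivity
  have hq1 : ∀ n ∈ B, q n ≤ 11 / 12 := fun n hn => by
    have := hlog n hn
    simp only [hq]
    rw [div_le_div_iff₀ (by linarith) (by norm_num)]
    linarith
  have hp0 : ∀ n, 0 ≤ p n := fun n => p_nonneg hA n
  have hp1 : ∀ n, p n ≤ 1 := fun n => p_le_one hA n
  -- the laws
  set L : Finset ℕ → ℝ := fun T => (∏ n ∈ T, p n) * ∏ n ∈ B \ T, (1 - p n) with hL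
  set C : Finset ℕ → ℝ := fun T => cramerOn B T with hC
  have hLaw : ∀ T ∈ B.powerset, lawOn μ A B T = L T := fun T hT =>
    (Pool.Agent.Q111.GE.t_LAW Ω μ A).1 p hA B T (mem_powerset.1 hT)
  have hC0 : ∀ T ∈ B.powerset, 0 < C T := fun T hT => cramerOn_pos hB (mem_powerset.1 hT)
  have hL0 : ∀ T, 0 ≤ L T := fun T => mul_nonneg (Finset.prod_nonneg fun n _ => hp0 n)
    (Finset.prod_nonneg fun n _ => by linarith [hp1 n])
  have hLs : ∑ T ∈ B.powerset, L T = 1 := by
    simp only [hL]
    rw [← Finset.prod_add]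
    apply Finset.prod_eq_one
    intro n _
    ring
  -- the chi-square sum
  set f : ℕ → ℝ := fun n => p n ^ 2 / q n + (1 - p n) ^ 2 / (1 - q n) with hf
  have hfe : ∀ n ∈ B, f n = 1 + d n ^ 2 * q n / (1 - q n) := by
    intro n hn
    have h1 := hq0 n hn
    have h2 : (0 : ℝ) < 1 - q n := by linarith [hq1 n hn]
    simp only [hf, hp]
    rw [hpc n hn]
    field_simp
    ring
  have hf1 : ∀ n ∈ B, 1 ≤ f n := by
    intro n hn
    rw [hfe n hn]
    have h1 := hq0 n hn
    have h2 : (0 : ℝ) < 1 - q n := by linarith [hq1 n hn]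
    have : 0 ≤ d n ^ 2 * q n / (1 - q n) := by positivity
    linarith
  set c : ℝ := ∏ n ∈ B, f n with hc
  have hc0 : 0 < c := Finset.prod_pos fun n hn => by linarith [hf1 n hn]
  have hcs : ∑ T ∈ B.powerset, L T ^ 2 / C T = c := by
    rw [hc]
    simp only [hf]
    rw [Finset.prod_add]
    refine Finset.sum_congr rfl fun T hT => ?_
    simp only [hL, hC, cramerOn]
    rw [mul_pow, ← Finset.prod_pow, ← Finset.prod_pow, mul_div_mul_comm,
      ← Finset.prod_div_distrib, ← Finset.prod_div_distrib]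
  have hterm : ∀ T ∈ B.powerset, lawOn μ A B T * Real.log (lawOn μ A B T / cramerOn B T) ≤
      L T ^ 2 / C T / c - L T + L T * Real.log c := by
    intro T hT
    rw [hLaw T hT]
    have h1 := hC0 T hT
    rcases (hL0 T).eq_or_lt with h2 | h2
    · rw [← h2]; simp
    · have h3 : 0 < L T / C T := by positivity
      have h4 : Real.log (L T / C T) = Real.log (L T / C T / c) + Real.log c := by
        rw [Real.log_div h3.ne' hc0.ne']; ring
      have h5 : Real.log (L T / C T / c) ≤ L T / C T / c - 1 :=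
        Real.log_le_sub_one_of_pos (by positivity)
      change L T * Real.log (L T / C T) ≤ _
      rw [h4]
      have h6 := mul_le_mul_of_nonneg_left h5 h2.le
      have h7 : L T * (L T / C T / c - 1) = L T ^ 2 / C T / c - L T := by ring
      linarith
  have h1 : relEntropy μ A B ≤ Real.log c := by
    unfold relEntropy
    refine (Finset.sum_le_sum hterm).trans (le_of_eq ?_)
    rw [Finset.sum_add_distrib, Finset.sum_sub_distrib, ← Finset.sum_div, hcs, hLs,
      ← Finset.sum_mul, hLs, div_self hc0.ne']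
    ring
  refine h1.trans ?_
  rw [hc, Real.log_prod fun n hn => by linarith [hf1 n hn]]
  refine Finset.sum_le_sum fun n hn => ?_
  have h2 := hq0 n hn
  have h3 := hq1 n hn
  have h4 : (0 : ℝ) < 1 - q n := by linarith
  rw [hfe n hn, hpc n hn]
  have h5 : 0 ≤ d n ^ 2 * q n := by positivity
  have h6 : Real.log (1 + d n ^ 2 * q n / (1 - q n)) ≤ d n ^ 2 * q n / (1 - q n) := by
    have h7 : 0 ≤ d n ^ 2 * q n / (1 - q n) := by positivity
    have := Real.log_le_sub_one_of_pos (show 0 < 1 + d n ^ 2 * q n / (1 - q n) by linarith)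
    linarith
  refine h6.trans ?_
  rw [div_le_iff₀ h4]
  nlinarith

end Q299.RZ
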