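import Pool.Agent.Q120.RZ.Stm

/-!
# Project RZ (helper120), job TAIL: deviations of the number of elements
-/

set_option autoImplicit false

namespace Q299.RZ

open Finset MeasureTheory Filter Pool.Agent.Q120.ET Pool.Agent.Q120.GM Pool.Agent.Q120.GE
open Pool.Agent.Q120.RZ Pool.Agent.Q112.LE
open scoped Topology

theorem num_eq {Ω : Type*} (A : Ω → Set ℕ) (I : Finset ℕ) (ω : Ω) :
    (num' (A ω) I : ℝ) = num I (fun n => {ω | n ∈ A ω}) ω := by
  classical
  unfold num' num
  rw [Finset.card_filter]
  push_cast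
  refine Finset.sum_congr rfl fun n _ => ?_
  by_cases h : n ∈ A ω
  · rw [if_pos (by convert h), Set.indicator_of_mem (show ω ∈ {ω | n ∈ A ω} from h)]
  · rw [if_neg (by convert h), Set.indicator_of_notMem (show ω ∉ {ω | n ∈ A ω} from h)]

theorem t_TAIL : J_TAIL := by
  intro Ω _ μ _ p A hA I V t hV ht
  classical
  set G : ℕ → Set Ω := fun n => {ω | n ∈ A ω} with hG
  have hGm : ∀ j ∈ I, MeasurableSet (G j) := fun j _ => hA.meas j
  have hm : Mutual μ I G := by
    intro T _
    have h1 : all A T = ⋂ i ∈ T, G i := by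
      ext ω
      simp [all, hG]
    rw [← h1, real_all hA T]
    exact Finset.prod_congr rfl fun i _ => (hA.prob i).symm
  set M : ℝ := ∑ n ∈ I, p n with hM
  have hMG : ∑ a ∈ I, μ.real (G a) = M := Finset.sum_congr rfl fun i _ => hA.prob i
  have hM0 : 0 ≤ M := Finset.sum_nonneg fun i _ => p_nonneg hA i
  have hVt : 0 < V + t := by linarith
  have hnum0 : ∀ ω, 0 ≤ num I G ω := by
    intro ω
    rw [← num_eq A I ω]
    positivity
  -- union
  have hsub : {ω | t ≤ |(num' (A ω) I : ℝ) - M|} ⊆
      {ω | M + t ≤ num I G ω} ∪ {ω | num I G ω ≤ M - t} := by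
    intro ω hω
    have hω' : t ≤ |(num' (A ω) I : ℝ) - M| := hω
    rw [num_eq A I ω] at hω'
    rcases le_abs.1 hω' with h | h
    · left
      show M + t ≤ num I G ω
      linarith
    · right
      show num I G ω ≤ M - t
      linarith
  have hle := (measureReal_mono hsub (measure_ne_top μ _)).trans (measureReal_union_le _ _)
  refine hle.trans ?_
  rcases le_or_gt t M with htM | htM
  · -- small deviations
    have hMp : 0 < M := lt_of_lt_of_le ht htM
    set l : ℝ := t / (2 * M) with hl
    have hl0 : 0 < l := by positivity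
    have hl1 : l ≤ 1 := by
      rw [hl, div_le_one (by positivity)]; linarith
    have hlM : l * M = t / 2 := by rw [hl]; field_simp
    have e1 : Real.exp l - 1 - l ≤ l ^ 2 :=
      (le_abs_self _).trans (Real.abs_exp_sub_one_sub_id_le (by rw [abs_of_nonneg hl0.le]; exact hl1))
    have e2 : Real.exp (-l) - 1 - (-l) ≤ (-l) ^ 2 :=
      (le_abs_self _).trans (Real.abs_exp_sub_one_sub_id_le (by
        rw [abs_neg, abs_of_nonneg hl0.le]; exact hl1))
    have h1 := tail_up hGm hm (l := l) hl0.le (M + t)
    have h2 := tail_down hGm hm (l := l) hl0.le (M - t)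
    rw [hMG] at h1 h2
    have h3 : -(l * t / 2) ≤ -(t ^ 2 / (4 * (V + t))) := by
      rw [neg_le_neg_iff, hl, div_mul_eq_mul_div, div_div, ← sq]
      apply div_le_div_of_nonneg_left (by positivity) (by positivity)
      linarith
    have h4 : (Real.exp l - 1) * M - l * (M + t) ≤ -(l * t / 2) := by nlinarith
    have h5 : (Real.exp (-l) - 1) * M + l * (M - t) ≤ -(l * t / 2) := by nlinarith
    have h6 := h1.trans (Real.exp_le_exp.2 (h4.trans h3))
    have h7 := h2.trans (Real.exp_le_exp.2 (h5.trans h3))
    linarith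
  · -- large deviations
    have h0 : {ω | num I G ω ≤ M - t} = ∅ := by
      ext ω
      simp only [Set.mem_ofPred_eq, Set.mem_empty_iff_false, iff_false, not_le]
      linarith [hnum0 ω]
    rw [h0, measureReal_empty, add_zero]
    have h1 := tail_up hGm hm (l := 1) zero_le_one (M + t)
    rw [hMG] at h1
    have h2 := Real.exp_one_lt_d9
    have h3 : (Real.exp 1 - 1) * M - 1 * (M + t) ≤ -(t / 4) := by nlinarith
    have h4 : -(t / 4) ≤ -(t ^ 2 / (4 * (V + t))) := by
      rw [neg_le_neg_iff, div_le_div_iff₀ (by positivity) (by norm_num)]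
      nlinarith
    have h5 := h1.trans (Real.exp_le_exp.2 (h3.trans h4))
    linarith [Real.exp_pos (-(t ^ 2 / (4 * (V + t))))]

end Q299.RZ
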